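import Pool.Agent.Lib.MP_8c9cbf_an.Final

/-!
# A separable `c_0`-rigid Banach space (Koszmider's question), with all its operators

For `𝕜 = ℝ` and for `𝕜 = ℂ` there is a separable Banach space `X` over `𝕜` which is `c_0`-rigid, not
isomorphic to `c_0`, with dual isomorphic to `ℓ_1`, such that every bounded operator on `X` is a
unique scalar multiple of the identity plus an operator that factors through `c_0`.  For `n ≥ 1` the
infinite dimensional complemented subspaces of `X^n` are, up to isomorphism, exactly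
`c_0, X, X^2, ..., X^n`, and these spaces are pairwise not isomorphic.
-/

namespace Pool.Agent.Results.MP_8c9cbf_an.Rigid

/-- the Banach space `c_0` of sequences in `𝕜` tending to `0`, with the supremum norm -/
abbrev C0 (𝕜 : Type) [RCLike 𝕜] := ZeroAtInftyContinuousMap ℕ 𝕜

/-- `X = Y ⊕ Z` is a nontrivial decomposition: complementary subspaces with a bounded projection
onto `Y` along `Z`, both infinite dimensional -/
structure Decomp (𝕜 : Type) [RCLike 𝕜] {X : Type} [NormedAddCommGroup X] [NormedSpace 𝕜 X]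
    (Y Z : Submodule 𝕜 X) : Prop where
  compl : IsCompl Y Z
  proj : ∃ P : X →L[𝕜] X, (∀ y ∈ Y, P y = y) ∧ ∀ z ∈ Z, P z = 0
  left : ¬ FiniteDimensional 𝕜 Y
  right : ¬ FiniteDimensional 𝕜 Z

/-- `X` is `c_0`-rigid -/
def IsRigid (𝕜 : Type) [RCLike 𝕜] (X : Type) [NormedAddCommGroup X] [NormedSpace 𝕜 X] : Prop :=
  (∃ Y Z : Submodule 𝕜 X, Decomp 𝕜 Y Z) ∧
  ∀ Y Z : Submodule 𝕜 X, Decomp 𝕜 Y Z →
    (Nonempty (Y ≃L[𝕜] C0 𝕜) ∧ Nonempty (Z ≃L[𝕜] X)) ∨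
    (Nonempty (Z ≃L[𝕜] C0 𝕜) ∧ Nonempty (Y ≃L[𝕜] X))

/-- `W` is isomorphic to a complemented subspace of `V` -/
def IsoCompl (𝕜 : Type) [RCLike 𝕜] (W V : Type) [NormedAddCommGroup W] [NormedSpace 𝕜 W]
    [NormedAddCommGroup V] [NormedSpace 𝕜 V] : Prop :=
  ∃ (a : W →L[𝕜] V) (b : V →L[𝕜] W), ∀ w, b (a w) = w

theorem result (𝕜 : Type) [RCLike 𝕜] :
    ∃ (X : Type) (_ : NormedAddCommGroup X) (_ : NormedSpace 𝕜 X),
      CompleteSpace X ∧ TopologicalSpace.SeparableSpace X ∧ IsRigid 𝕜 X ∧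
      ¬ Nonempty (X ≃L[𝕜] C0 𝕜) ∧
      Nonempty (StrongDual 𝕜 X ≃L[𝕜] lp (fun _ : ℕ => 𝕜) 1) ∧
      (∀ T : X →L[𝕜] X, ∃! c : 𝕜, ∃ (a : X →L[𝕜] C0 𝕜) (b : C0 𝕜 →L[𝕜] X),
        ∀ x, T x = c • x + b (a x)) ∧
      (∀ n, 1 ≤ n → ∀ (W : Type) [NormedAddCommGroup W] [NormedSpace 𝕜 W] [CompleteSpace W],
        ¬ FiniteDimensional 𝕜 W → (IsoCompl 𝕜 W (Fin n → X) ↔ Nonempty (W ≃L[𝕜] C0 𝕜) ∨
          ∃ k, 1 ≤ k ∧ k ≤ n ∧ Nonempty (W ≃L[𝕜] (Fin k → X)))) ∧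
      (∀ k l : ℕ, Nonempty ((Fin k → X) ≃L[𝕜] (Fin l → X)) → k = l) ∧
      (∀ k : ℕ, ¬ Nonempty ((Fin k → X) ≃L[𝕜] C0 𝕜)) := by
  obtain ⟨X, i1, i2, i3, ⟨F⟩⟩ := Pool.Agent.MP8c9cbf.exists_FS 𝕜
  refine ⟨X, i1, i2, i3, F.separable, ⟨?_, ?_⟩, F.not_iso_c0, ?_, ?_, ?_, F.pow_inj,
    F.pow_not_c0⟩
  · obtain ⟨Y, Z, hY, hZ, h, hY', hZ'⟩ := F.exists_decomp
    obtain ⟨p, q, h1, h2, h3, h4, h5⟩ := Pool.Agent.MP8c9cbf.exists_proj Y Z hY hZ h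
    refine ⟨Y, Z, h, ⟨Y.subtypeL.comp p, fun y hy => ?_, fun z hz => ?_⟩, hY', hZ'⟩
    · exact congrArg Subtype.val (h1 ⟨y, hy⟩)
    · exact congrArg Subtype.val (h3 ⟨z, hz⟩)
  · rintro Y Z ⟨h, ⟨P, hP1, hP2⟩, hY, hZ⟩
    obtain ⟨h1, h2⟩ := Pool.Agent.MP8c9cbf.closed_of_proj h P hP1 hP2
    exact F.rigid Y Z h1 h2 h hY hZ
  · obtain ⟨e⟩ := F.dual_iso
    exact ⟨e.symm⟩
  · intro T
    obtain ⟨c, ⟨a, b, h⟩, huniq⟩ := F.operators T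
    refine ⟨c, ⟨a, b, fun x => ?_⟩, ?_⟩
    · have h1 : T x - c • x = b (a x) := congrArg (fun U : X →L[𝕜] X => U x) h
      rw [← h1]
      abel
    · rintro c' ⟨a', b', h'⟩
      refine huniq c' ⟨a', b', ContinuousLinearMap.ext fun x => ?_⟩
      show T x - c' • x = b' (a' x)
      rw [h' x]
      abel
  · intro n hn W _ _ _ hW
    exact F.pow_iff n hn W hW

end Pool.Agent.Results.MP_8c9cbf_an.Rigid
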